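import Pool.Agent.helper17.EXT.SpecJ

/-!
# Row ftj:JSW of project EXT (MP_561ff4_al): automorphisms which map long root subgroups to short root subgroups
-/

set_option autoImplicit false

open Finset

namespace Pool.Agent.EXT

open Pool.Agent.EXC

theorem JSW_one {K : Type} [Field K] (h2 : (2 : K) = 0) (s : ℤ) (hs : s = 1 ∨ s = -1) : (s : K) = 1 := by
  have h3 : (-1 : K) = 1 := by
    have h4 : (1 : K) + 1 = 0 := by rw [one_add_one_eq_two]; exact h2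
    linear_combination (-1 : K) * h4
  rcases hs with rfl | rfl
  · simp
  · push_cast
    exact h3

theorem JSW_sn (v : Fin 6 → ℤ) : sn v = 1 ∨ sn v = -1 := by
  unfold sn
  split_ifs
  · exact Or.inl rfl
  · exact Or.inr rfl

/-- the semilinear map on root vectors in characteristic 2 -/
theorem JSW_si {K : Type} [Field K] (h2 : (2 : K) = 0) (hpv : ∀ v : Fin 6 → ℤ, pv (pv v) = v)
    (hip : ∀ v w : Fin 6 → ℤ, ip C6 (pv v) (pv w) = ip C6 v w) (γ : Fin 6 → ℤ) (hγ : ip C6 γ γ = 2) :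
    si (RingEquiv.refl K) (E C6 γ) = (E C6 (pv γ) : Lm C6 K) := by
  have h3 : ip C6 (pv γ) (pv γ) = 2 := by rw [hip]; exact hγ
  unfold si
  refine Prod.ext ?_ ?_
  · funext i
    simp [E, hγ, h3]
  · funext δ
    have h4 : ip C6 (pv δ.1) (pv δ.1) = 2 := by rw [hip]; exact δ.2
    show (sn δ.1 : K) * (RingEquiv.refl K) (cf (E C6 γ) (pv δ.1)) = (E C6 (pv γ) : Lm C6 K).2 δ
    rw [JSW_one h2 _ (JSW_sn _), one_mul]
    show cf (E C6 γ) (pv δ.1) = (E C6 (pv γ) : Lm C6 K).2 δ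
    unfold cf
    rw [dif_pos h4]
    by_cases e : δ.1 = pv γ
    · have e1 : pv δ.1 = γ := by rw [e, hpv]
      have e2 : δ = ⟨pv γ, h3⟩ := Subtype.ext e
      have e3 : (⟨pv δ.1, h4⟩ : Rt C6) = ⟨γ, hγ⟩ := Subtype.ext e1
      rw [e3, e2]
      simp [E, hγ, h3]
    · have e1 : pv δ.1 ≠ γ := by
        intro e1
        apply e
        rw [← e1, hpv]
      have e2 : δ ≠ ⟨pv γ, h3⟩ := fun e2 => e (congrArg Subtype.val e2)
      have e3 : (⟨pv δ.1, h4⟩ : Rt C6) ≠ ⟨γ, hγ⟩ := fun e3 => e1 (congrArg Subtype.val e3)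
      simp only [E, hγ, h3, dite_true]
      rw [Pi.single_eq_of_ne e3, Pi.single_eq_of_ne e2]

theorem JSW_pv (v : Fin 6 → ℤ) : pv (pv v) = v := by
  funext i
  fin_cases i <;> rfl

theorem JSW_ip (v w : Fin 6 → ℤ) : ip C6 (pv v) (pv w) = ip C6 v w := by
  simp only [ip, pv, pn, C6, CartanMatrix.E₆, Fin.sum_univ_six]
  simp
  ring

/-- all short root vectors are conjugate, together with their images under the symmetry -/
theorem JSW_conj (hWST : WST_stmt) (hWPS : WPS_stmt) (hSGR : SGR_stmt)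
    (K : Type) [Field K] (h2 : (2 : K) = 0) (γ δ : Fin 6 → ℤ) (hγ : SR γ) (hδ : SR δ) :
    ∃ g ∈ GS (RingEquiv.refl K), g (E C6 γ) = (E C6 δ : Lm C6 K) ∧
      g (E C6 (pv γ)) = (E C6 (pv δ) : Lm C6 K) := by
  have key : ∀ γ, SR γ → ∃ g ∈ GS (RingEquiv.refl K), g (E C6 γ) = (E C6 (sr 0) : Lm C6 K) ∧
      g (E C6 (pv γ)) = (E C6 (pv (sr 0)) : Lm C6 K) := by
    intro γ hγ
    obtain ⟨g, hg, s, s', hs, hs', e1, _⟩ := hWPS K (RingEquiv.refl K) (fun _ => rfl) γ γ (sr 0) (sr 0)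
      hγ.1 hγ.1 (hWST.2.1 γ hγ)
    have e1' : g (E C6 γ) = (E C6 (sr 0) : Lm C6 K) := by rw [e1, JSW_one h2 s hs, one_smul]
    refine ⟨g, hg, e1', ?_⟩
    have hc := ((hSGR K (RingEquiv.refl K) (fun _ => rfl)).2.2.2.2.2 g hg).2.2 (E C6 γ)
    rw [e1', JSW_si h2 JSW_pv JSW_ip _ (ip_sr_self C6 0), JSW_si h2 JSW_pv JSW_ip _ hγ.1] at hc
    exact hc.symm
  obtain ⟨g1, hg1, a1, a2⟩ := key γ hγ
  obtain ⟨g2, hg2, b1, b2⟩ := key δ hδ
  refine ⟨g2⁻¹ * g1, mul_mem (inv_mem hg2) hg1, ?_, ?_⟩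
  · show g2⁻¹ (g1 (E C6 γ)) = E C6 δ
    rw [a1, ← b1]
    exact LinearEquiv.symm_apply_apply g2 _
  · show g2⁻¹ (g1 (E C6 (pv γ))) = E C6 (pv δ)
    rw [a2, ← b2]
    exact LinearEquiv.symm_apply_apply g2 _

/-- transport of a short root subgroup to another short root -/
theorem JSW_tr (hSGR : SGR_stmt) (K : Type) [Field K] (h2 : (2 : K) = 0)
    (γ δ : Fin 6 → ℤ) (hγ : SR γ) (g : Lm C6 K ≃ₗ[K] Lm C6 K) (hg : g ∈ GS (RingEquiv.refl K))
    (e1 : g (E C6 γ) = (E C6 δ : Lm C6 K)) (e2 : g (E C6 (pv γ)) = (E C6 (pv δ) : Lm C6 K))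
    (h : Lm C6 K ≃ₗ[K] Lm C6 K) (f : Equiv.Perm (LT (RingEquiv.refl K))) (hf : InH h γ f) :
    InH (h * g⁻¹) δ f := by
  obtain ⟨t, k, hk, hv⟩ := hf
  have hbeta := (f_NBR 6 C6 1 th ![0, 2, 3, 4, 5] f_DE6.2).1
  obtain ⟨_, _, E3, _⟩ := f_EXF 6 C6 K hbeta
  have hAu := ((hSGR K (RingEquiv.refl K) (fun _ => rfl)).2.2.2.2.2 g hg).2.1
  have hpγ : ip C6 (pv γ) (pv γ) = 2 := by rw [JSW_ip]; exact hγ.1
  have hX1 : Xtr C6 (E C6 γ : Lm C6 K) := (E3 _ ((f_EXF 6 C6 K hbeta).2.1 γ hγ.1)).1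
  have hX2 : Xtr C6 (E C6 (pv γ) : Lm C6 K) := (E3 _ ((f_EXF 6 C6 K hbeta).2.1 (pv γ) hpγ)).1
  obtain ⟨_, _, X3, _⟩ := f_XAU 6 C6 K _ hX1
  obtain ⟨_, _, Y3, _⟩ := f_XAU 6 C6 K _ hX2
  refine ⟨t, g * k * g⁻¹, ?_, ?_⟩
  · intro v
    show g (k (g⁻¹ v)) = _
    have hgg : g (g⁻¹ v) = v := LinearEquiv.apply_symm_apply g v
    rw [hk, (X3 g hAu).2 t, (Y3 g hAu).2, hgg, e1, e2, JSW_one h2 _ (JSW_sn γ), JSW_one h2 _ (JSW_sn δ)]
  · intro v
    rw [hv]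
    have h5 : (h * g⁻¹)⁻¹ (v : Lm C6 K) = g (h⁻¹ (v : Lm C6 K)) := by
      rw [mul_inv_rev, inv_inv]
      rfl
    rw [h5]
    show h (k (h⁻¹ (v : Lm C6 K))) = h (g⁻¹ (g (k (g⁻¹ (g (h⁻¹ (v : Lm C6 K)))))))
    have h6 : ∀ w, g⁻¹ (g w) = w := fun w => LinearEquiv.symm_apply_apply g w
    rw [h6, h6]

theorem JSW_LR : LR (sr 1) := ⟨ip_sr_self C6 1, by decide⟩

theorem JSW (hWST : WST_stmt) (hWPS : WPS_stmt) (hSGR : SGR_stmt) (hESF : ESF_stmt) (hGFX : GFX_stmt)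
    (hJLS : JLS_stmt) (hJSH : JSH_stmt) (hJAU : JAU_stmt) : JSW_stmt := by
  intro K _ _ h2 x hx
  have hτ : ∀ y : K, (RingEquiv.refl K) ((RingEquiv.refl K) y) = y := fun _ => rfl
  have ha0 : ExS (RingEquiv.refl K) (E C6 (sr 1) : Lm C6 K) := (hESF K _ hτ).1 _ JSW_LR
  obtain ⟨G1, G2⟩ := hGFX K (RingEquiv.refl K) hτ
  -- part 1
  have P1 : ∀ y : MulAut (GF (RingEquiv.refl K)), SwF y → ¬ RAF (RingEquiv.refl K) y := by
    intro y hy hR
    obtain ⟨b, hb, hI⟩ := hR _ ha0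
    obtain ⟨h, hh, γ, hγ, hS⟩ := hy _ ha0
    obtain ⟨f, hf, hf1⟩ := (G2 _ ha0).1 1 rfl
    have hfX : InX (RingEquiv.refl K) (E C6 (sr 1)) ((⟨f, hf⟩ : GF (RingEquiv.refl K)) : Equiv.Perm (LT (RingEquiv.refl K))) :=
      ⟨1, rfl, hf1⟩
    obtain ⟨t, _, ht⟩ := (hI ⟨f, hf⟩).1 hfX
    have h0 : t = 0 := (hJLS K h2).1 b t _ hb ht h hh γ hγ ((hS ⟨f, hf⟩).1 hfX)
    subst h0
    have h3 : y ⟨f, hf⟩ = 1 := by
      apply Subtype.ext
      apply Equiv.ext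
      intro v
      apply Subtype.ext
      rw [ht v]
      simp [xe]
    have h4 : (⟨f, hf⟩ : GF (RingEquiv.refl K)) = 1 := by
      apply y.injective
      rw [h3, map_one]
    have h5 : f = 1 := congrArg Subtype.val h4
    have h6 : IsF (RingEquiv.refl K) (E C6 (sr 1)) 0 f := by
      intro v
      rw [h5]
      simp [xe]
    exact one_ne_zero ((G2 _ ha0).2.2.2.1 1 0 f hf1 h6)
  refine ⟨P1 x hx, ?_, ?_⟩
  · -- part 2
    have hinv : SwF x⁻¹ := by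
      rcases hJAU K h2 x⁻¹ with h | h
      · exfalso
        obtain ⟨b, hb, hI⟩ := h _ ha0
        obtain ⟨k, hk, γ, hγ, hS⟩ := hx _ hb
        obtain ⟨f, hf, hf1⟩ := (G2 _ ha0).1 1 rfl
        have hfX : InX (RingEquiv.refl K) (E C6 (sr 1)) ((⟨f, hf⟩ : GF (RingEquiv.refl K)) : Equiv.Perm (LT (RingEquiv.refl K))) :=
          ⟨1, rfl, hf1⟩
        have h3 := (hS _).1 ((hI ⟨f, hf⟩).1 hfX)
        have h4 : x (x⁻¹ ⟨f, hf⟩) = (⟨f, hf⟩ : GF (RingEquiv.refl K)) := MulEquiv.apply_symm_apply x _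
        rw [h4] at h3
        exact one_ne_zero ((hJLS K h2).1 _ 1 f ha0 hf1 k hk γ hγ h3)
      · exact h
    obtain ⟨h0, hh0, γ0, hγ0, hS0⟩ := hinv _ ha0
    have hS0' : ∀ f : GF (RingEquiv.refl K), InX (RingEquiv.refl K) (E C6 (sr 1)) ((x f : GF (RingEquiv.refl K)) : Equiv.Perm (LT (RingEquiv.refl K))) ↔
        InH h0 γ0 (f : Equiv.Perm (LT (RingEquiv.refl K))) := by
      intro f
      have h3 := hS0 (x f)
      have h4 : x⁻¹ (x f) = f := MulEquiv.symm_apply_apply x _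
      rw [h4] at h3
      exact h3
    intro a ha
    obtain ⟨h, hh, γ, hγ, hS⟩ := hx _ ha
    obtain ⟨g, hg, e1, e2⟩ := JSW_conj hWST hWPS hSGR K h2 γ γ0 hγ hγ0
    have hgi : g⁻¹ ∈ GS (RingEquiv.refl K) := inv_mem hg
    have e1' : g⁻¹ (E C6 γ0) = (E C6 γ : Lm C6 K) := by
      rw [← e1]; exact LinearEquiv.symm_apply_apply g _
    have e2' : g⁻¹ (E C6 (pv γ0)) = (E C6 (pv γ) : Lm C6 K) := by
      rw [← e2]; exact LinearEquiv.symm_apply_apply g _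
    have T : ∀ f, InH h γ f ↔ InH (h * g⁻¹) γ0 f := by
      intro f
      constructor
      · exact JSW_tr hSGR K h2 γ γ0 hγ g hg e1 e2 h f
      · intro hf
        have h7 := JSW_tr hSGR K h2 γ0 γ hγ0 g⁻¹ hgi e1' e2' _ f hf
        have h8 : h * g⁻¹ * g⁻¹⁻¹ = h := by group
        rw [h8] at h7
        exact h7
    -- the conjugating element
    have hk : h * g⁻¹ * h0⁻¹ ∈ GS (RingEquiv.refl K) := mul_mem (mul_mem hh hgi) (inv_mem hh0)
    obtain ⟨k, hkdef⟩ : ∃ k, k = h * g⁻¹ * h0⁻¹ := ⟨_, rfl⟩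
    rw [← hkdef] at hk
    have hkh : k * h0 = h * g⁻¹ := by rw [hkdef]; group
    have hkh' : k⁻¹ * (h * g⁻¹) = h0 := by rw [hkdef]; group
    obtain ⟨F, hF, hFk⟩ := G1 k hk
    have hFk' : ∀ v : LT (RingEquiv.refl K), ((F⁻¹ v : LT (RingEquiv.refl K)) : Lm C6 K) = k⁻¹ (v : Lm C6 K) := by
      intro v
      have h9 := hFk (F⁻¹ v)
      have h10 : F (F⁻¹ v) = v := F.apply_symm_apply v
      rw [h10] at h9
      rw [h9]
      exact (LinearEquiv.symm_apply_apply k _).symm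
    have C : ∀ f : Equiv.Perm (LT (RingEquiv.refl K)), InH (h * g⁻¹) γ0 f ↔ InH h0 γ0 (F⁻¹ * f * F) := by
      intro f
      constructor
      · intro hf
        have h11 := (hJSH K h2 (h * g⁻¹) (mul_mem hh hgi) γ0 hγ0).2.2.2.2.1 f hf F⁻¹ (inv_mem hF) k⁻¹ (inv_mem hk) hFk'
        rw [hkh', inv_inv] at h11
        exact h11
      · intro hf
        have h11 := (hJSH K h2 h0 hh0 γ0 hγ0).2.2.2.2.1 _ hf F hF k hk hFk
        rw [hkh] at h11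
        have h12 : F * (F⁻¹ * f * F) * F⁻¹ = f := by group
        rw [h12] at h11
        exact h11
    -- the image of the conjugating element
    obtain ⟨Fx, hFx⟩ : ∃ Fx : GF (RingEquiv.refl K), Fx = x ⟨F, hF⟩ := ⟨_, rfl⟩
    obtain ⟨m, hm, hmv⟩ := Fx.2
    have hminv : ∀ v : LT (RingEquiv.refl K), (((Fx⁻¹ : GF (RingEquiv.refl K)) : Equiv.Perm (LT (RingEquiv.refl K))) v : Lm C6 K) = m⁻¹ (v : Lm C6 K) := by
      intro v
      have h9 := hmv (((Fx⁻¹ : GF (RingEquiv.refl K)) : Equiv.Perm (LT (RingEquiv.refl K))) v)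
      have h10 : (Fx : Equiv.Perm (LT (RingEquiv.refl K))) (((Fx⁻¹ : GF (RingEquiv.refl K)) : Equiv.Perm (LT (RingEquiv.refl K))) v) = v :=
        (Fx : Equiv.Perm (LT (RingEquiv.refl K))).apply_symm_apply v
      rw [h10] at h9
      rw [h9]
      exact (LinearEquiv.symm_apply_apply m _).symm
    have hb : ExS (RingEquiv.refl K) (m (E C6 (sr 1)) : Lm C6 K) := ((hESF K _ hτ).2 _ ha0).2.2.2.1 m hm
    refine ⟨m (E C6 (sr 1)), hb, ?_⟩
    intro f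
    have hconj : x ((⟨F, hF⟩ : GF (RingEquiv.refl K))⁻¹ * x f * ⟨F, hF⟩) = Fx⁻¹ * x (x f) * Fx := by
      rw [map_mul, map_mul, map_inv, hFx]
    have D1 : InX (RingEquiv.refl K) a (f : Equiv.Perm (LT (RingEquiv.refl K))) ↔
        InX (RingEquiv.refl K) (E C6 (sr 1)) ((Fx⁻¹ * x (x f) * Fx : GF (RingEquiv.refl K)) : Equiv.Perm (LT (RingEquiv.refl K))) := by
      rw [hS f, T, C, ← hconj, hS0']
      rfl
    rw [D1]
    show InX (RingEquiv.refl K) (E C6 (sr 1)) ((Fx⁻¹ * x (x f) * Fx : GF (RingEquiv.refl K)) : Equiv.Perm (LT (RingEquiv.refl K))) ↔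
      InX (RingEquiv.refl K) (m (E C6 (sr 1))) ((x (x f) : GF (RingEquiv.refl K)) : Equiv.Perm (LT (RingEquiv.refl K)))
    constructor
    · rintro ⟨t, ht, hI⟩
      refine ⟨t, ht, ?_⟩
      have h13 := (G2 _ ha0).2.2.2.2 (Fx : Equiv.Perm (LT (RingEquiv.refl K))) Fx.2 m hm hmv t _ hI
      have h14 : ((Fx : GF (RingEquiv.refl K)) : Equiv.Perm (LT (RingEquiv.refl K))) * ((Fx⁻¹ * x (x f) * Fx : GF (RingEquiv.refl K)) : Equiv.Perm (LT (RingEquiv.refl K))) *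
          ((Fx : GF (RingEquiv.refl K)) : Equiv.Perm (LT (RingEquiv.refl K)))⁻¹ = ((x (x f) : GF (RingEquiv.refl K)) : Equiv.Perm (LT (RingEquiv.refl K))) := by
        have h15 : Fx * (Fx⁻¹ * x (x f) * Fx) * Fx⁻¹ = x (x f) := by group
        have h16 := congrArg (fun z : GF (RingEquiv.refl K) => (z : Equiv.Perm (LT (RingEquiv.refl K)))) h15
        exact h16
      rw [h14] at h13
      exact h13
    · rintro ⟨t, ht, hI⟩
      refine ⟨t, ht, ?_⟩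
      have h13 := (G2 _ hb).2.2.2.2 ((Fx⁻¹ : GF (RingEquiv.refl K)) : Equiv.Perm (LT (RingEquiv.refl K))) (Fx⁻¹).2 m⁻¹ (inv_mem hm) hminv t _ hI
      have h17 : m⁻¹ (m (E C6 (sr 1))) = (E C6 (sr 1) : Lm C6 K) := LinearEquiv.symm_apply_apply m _
      rw [h17] at h13
      have h14 : ((Fx⁻¹ : GF (RingEquiv.refl K)) : Equiv.Perm (LT (RingEquiv.refl K))) * ((x (x f) : GF (RingEquiv.refl K)) : Equiv.Perm (LT (RingEquiv.refl K))) *
          ((Fx⁻¹ : GF (RingEquiv.refl K)) : Equiv.Perm (LT (RingEquiv.refl K)))⁻¹ = ((Fx⁻¹ * x (x f) * Fx : GF (RingEquiv.refl K)) : Equiv.Perm (LT (RingEquiv.refl K))) := by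
        have h15 : Fx⁻¹ * x (x f) * (Fx⁻¹)⁻¹ = Fx⁻¹ * x (x f) * Fx := by group
        have h16 := congrArg (fun z : GF (RingEquiv.refl K) => (z : Equiv.Perm (LT (RingEquiv.refl K)))) h15
        exact h16
      rw [h14] at h13
      exact h13
  · -- part 3
    intro y hy a ha
    obtain ⟨b, hb, hI⟩ := hy a ha
    obtain ⟨h, hh, γ, hγ, hS⟩ := hx b hb
    refine ⟨h, hh, γ, hγ, ?_⟩
    intro f
    rw [hI f, hS (y f)]
    rfl

end Pool.Agent.EXT
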